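import Pool.Agent.H51.EI.TargetsC

/-! Row DSK of the board `exi_modules`: the integers of `ℚ` and of an imaginary quadratic field
have absolute value at least one. -/

set_option autoImplicit false

namespace Pool.Agent.H60.EI.DSK

open Pool.Agent.H51.EI

/-- a rational number which is an algebraic integer is an integer -/
theorem int_of_rat {z : ℂ} {q : ℚ} (hz : IsIntegral ℤ z) (hq : z = (q : ℂ)) :
    ∃ n : ℤ, z = (n : ℂ) := by
  rw [hq] at hz
  have h1 : IsIntegral ℤ (algebraMap ℚ ℂ q) := hz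
  rw [isIntegral_algebraMap_iff (algebraMap ℚ ℂ).injective] at h1
  obtain ⟨n, hn⟩ := IsIntegrallyClosed.isIntegral_iff.1 h1
  refine ⟨n, ?_⟩
  rw [hq, ← hn]
  simp

theorem one_le_of_rat {z : ℂ} {q : ℚ} (hz : IsIntegral ℤ z) (hq : z = (q : ℂ)) (h0 : z ≠ 0) :
    1 ≤ ‖z‖ := by
  obtain ⟨n, hn⟩ := int_of_rat hz hq
  rw [hn] at h0 ⊢
  have hn0 : n ≠ 0 := fun h => h0 (by rw [h]; simp)
  rw [Complex.norm_intCast]
  exact_mod_cast Int.one_le_abs hn0

theorem basis {K : Subfield ℂ} (h2 : Module.finrank ℚ K = 2) {x0 : ℂ} (hx0 : x0 ∈ K)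
    (him : x0.im ≠ 0) (x : ℂ) (hx : x ∈ K) : ∃ a b : ℚ, x = (a : ℂ) + (b : ℂ) * x0 := by
  have hli : LinearIndependent ℚ ![(1 : K), ⟨x0, hx0⟩] := by
    rw [LinearIndependent.pair_iff]
    intro s t hst
    have h3 : (s : ℂ) + (t : ℂ) * x0 = 0 := by
      have h4 := congrArg (fun y : K => (y : ℂ)) hst
      simpa [Rat.smul_def] using h4
    have h5 : t = 0 := by
      have h6 := congrArg Complex.im h3
      simp only [Complex.add_im, Complex.ratCast_im, Complex.mul_im, Complex.ratCast_re,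
        zero_mul, add_zero, zero_add, Complex.zero_im] at h6
      rcases mul_eq_zero.1 h6 with h | h
      · exact_mod_cast h
      · exact absurd h him
    rw [h5] at h3
    refine ⟨?_, h5⟩
    have h7 : (s : ℂ) = 0 := by simpa using h3
    exact_mod_cast h7
  have hspan := hli.span_eq_top_of_card_eq_finrank (by rw [h2]; rfl)
  have hmem : (⟨x, hx⟩ : K) ∈ Submodule.span ℚ (Set.range ![(1 : K), ⟨x0, hx0⟩]) := by
    rw [hspan]; trivial
  rw [Matrix.range_cons, Matrix.range_cons, Matrix.range_empty, Set.union_empty] at hmem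
  have hmem' : (⟨x, hx⟩ : K) ∈ Submodule.span ℚ {(1 : K), ⟨x0, hx0⟩} := hmem
  obtain ⟨a, b, hab⟩ := Submodule.mem_span_pair.1 hmem'
  refine ⟨a, b, ?_⟩
  have h4 := congrArg (fun y : K => (y : ℂ)) hab
  simpa [Rat.smul_def] using h4.symm

theorem pf_DSK : T_DSK := by
  intro K hK x hx
  obtain ⟨x, hxK, hxi⟩ := x
  have hx0 : x ≠ 0 := fun h => hx (Subtype.ext h)
  show 1 ≤ ‖x‖
  rcases hK with h1 | ⟨h2, x0, hx0K, him⟩
  · have h3 : (⊥ : Subalgebra ℚ K) = ⊤ := Subalgebra.bot_eq_top_iff_finrank_eq_one.2 h1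
    have h4 : (⟨x, hxK⟩ : K) ∈ (⊥ : Subalgebra ℚ K) := by rw [h3]; trivial
    obtain ⟨q, hq⟩ := Algebra.mem_bot.1 h4
    have h5 := congrArg (fun y : K => (y : ℂ)) hq
    exact one_le_of_rat (q := q) hxi (by simpa using h5.symm) hx0
  · obtain ⟨α, β, hαβ⟩ := basis h2 hx0K him (x0 ^ 2) (K.pow_mem hx0K 2)
    obtain ⟨a, b, hab⟩ := basis h2 hx0K him x hxK
    have hc : (starRingEnd ℂ) x0 ^ 2 = (α : ℂ) + (β : ℂ) * (starRingEnd ℂ) x0 := by
      have := congrArg (starRingEnd ℂ) hαβ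
      simpa using this
    have hne : x0 - (starRingEnd ℂ) x0 ≠ 0 := by
      intro h
      have h3 := congrArg Complex.im h
      simp only [Complex.sub_im, Complex.conj_im, Complex.zero_im, sub_neg_eq_add] at h3
      exact him (by linarith)
    have htr : x0 + (starRingEnd ℂ) x0 = (β : ℂ) := by
      have h3 : (x0 - (starRingEnd ℂ) x0) * (x0 + (starRingEnd ℂ) x0 - (β : ℂ)) = 0 := by
        linear_combination hαβ - hc
      rcases mul_eq_zero.1 h3 with h | h
      · exact absurd h hne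
      · exact sub_eq_zero.1 h
    have hnm : x0 * (starRingEnd ℂ) x0 = -(α : ℂ) := by
      linear_combination x0 * htr - hαβ
    have hN : x * (starRingEnd ℂ) x = ((a ^ 2 + a * b * β - b ^ 2 * α : ℚ) : ℂ) := by
      have hcx : (starRingEnd ℂ) x = (a : ℂ) + (b : ℂ) * (starRingEnd ℂ) x0 := by
        rw [hab]; simp
      rw [hcx]
      conv_lhs => rw [hab]
      push_cast
      linear_combination (a : ℂ) * b * htr + (b : ℂ) ^ 2 * hnm
    have hint : IsIntegral ℤ (x * (starRingEnd ℂ) x) :=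
      hxi.mul (map_isIntegral_int (starRingEnd ℂ) hxi)
    have hne0 : x * (starRingEnd ℂ) x ≠ 0 :=
      mul_ne_zero hx0 (fun h => hx0 ((map_eq_zero _).1 h))
    have h4 := one_le_of_rat hint hN hne0
    rw [norm_mul, Complex.norm_conj] at h4
    nlinarith [norm_nonneg x]

end Pool.Agent.H60.EI.DSK
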